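import Pool.Agent.H789R2.AN.TNS

set_option autoImplicit false

open scoped Manifold ContDiff Topology Bundle
open Set Filter Bundle

namespace Pool.Agent.Results.MP_610fe3_an.CommutingChain

open Pool.Agent.H721R2 Pool.Agent.H789R2.AN

/-- **Transitivity of Anosov diffeomorphisms linked by commuting chains.**
Let `M` be a closed connected smooth manifold.

(1) Let `f i` be `C¹` Anosov diffeomorphisms of `M` with splittings `TM = Es i ⊕ Eu i`.  Join `i` and
`j` by an edge when `f i` and `f j` commute and `Eu i ⊆ Eu j`.  If the resulting graph is connected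
and the bundles `Eu i` together span `TM`, then every `f i` is topologically transitive.

(2) Let an abelian group `G` act on `M` by `C¹` diffeomorphisms `α a`, let `F j` be finitely many
fields of tangent subspaces and `χ j : G → ℝ` homomorphisms, no two of them negatively
proportional (the action is totally nonsymplectic).  Suppose that each Weyl chamber contains an
element `b` such that `α b` is Anosov with stable bundle the sum of the `F j` with `χ j b < 0` and
unstable bundle the sum of the `F j` with `χ j b > 0`.  Then every such `α a` is topologically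
transitive. -/
theorem result (E : Type*) [NormedAddCommGroup E] [NormedSpace ℝ E] [FiniteDimensional ℝ E]
    (M : Type*) [TopologicalSpace M] [T2Space M] [CompactSpace M] [ConnectedSpace M]
    [ChartedSpace E M] [IsManifold 𝓘(ℝ, E) ∞ M] :
    (∀ (ι : Type*) (f : ι → Diffeomorph 𝓘(ℝ, E) 𝓘(ℝ, E) M M 1)
      (Es Eu : ι → ∀ x : M, Submodule ℝ (TangentSpace 𝓘(ℝ, E) x)),
      (∀ i, IsAnosov (f i) (Es i) (Eu i)) →
      (∀ i j, Relation.EqvGen (fun i j =>
        (∀ x, f i (f j x) = f j (f i x)) ∧ ∀ x, Eu i x ≤ Eu j x) i j) →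
      (∀ x, ⨆ i, Eu i x = ⊤) →
      ∀ i, TopTransitive (f i)) ∧
    (∀ (G J : Type*) [AddCommGroup G] [Finite J] (α : G → Diffeomorph 𝓘(ℝ, E) 𝓘(ℝ, E) M M 1)
      (χ : J → G →+ ℝ) (F : J → ∀ x : M, Submodule ℝ (TangentSpace 𝓘(ℝ, E) x)),
      (∀ a b x, α (a + b) x = α a (α b x)) →
      (∀ i j, ∀ c : ℝ, 0 < c → ∃ a, χ i a ≠ -c * χ j a) →
      (∀ a, (∀ j, χ j a ≠ 0) → ∃ b, (∀ j, 0 < χ j a * χ j b) ∧
        IsAnosov (α b) (negField χ F b) (posField χ F b)) →
      ∀ a, (∀ j, χ j a ≠ 0) → IsAnosov (α a) (negField χ F a) (posField χ F a) →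
      TopTransitive (α a)) :=
  ⟨fun _ f Es Eu hA hconn hspan i => man_main f Es Eu hA hconn hspan i,
    fun _ _ _ _ α χ F hα hTNS hW a ha hA => tns_main α hα χ F hTNS hW a ha hA⟩

end Pool.Agent.Results.MP_610fe3_an.CommutingChain
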