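import Pool.Agent.H779R2.Nu.MainN

set_option autoImplicit false

open scoped Manifold ContDiff Topology Bundle
open Set Filter Bundle

namespace Pool.Agent.Results.MP_610fe3_an.ConformalBundleTransitive

open Pool.Agent.H721R2 Pool.Agent.H789R2.AN Pool.Agent.H779R2.An Pool.Agent.H779R2.Nu

/-- **Transitivity of Anosov diffeomorphisms with a conformal bundle.**
Let `f` be a `C²` Anosov diffeomorphism of a closed connected smooth manifold `M`, with splitting
`TM = Es ⊕ Eu` of ranks `ds`, `du`.  Suppose that one of the following holds: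
* `du ≥ 2`, `ds ≥ 2` and `f` is conformal on `Eu` with respect to a continuous Riemannian metric
  on this bundle (`InvConfOn`); nothing else is assumed, in particular nothing on `Es`;
* `ds ≥ 2`, `du ≥ 2` and `f` is conformal on `Es` with respect to one;
* `du = 2`, `ds ≥ 2` and `Eu` carries a continuous `Df`-invariant complex structure
  (`InvComplexOn`);
* `ds = 2`, `du ≥ 2` and `Es` carries one;
* `f` preserves a continuous almost complex structure on `M` (`PreservesAC`; for instance `M` is a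
  complex manifold and `f` is holomorphic) and one of the two bundles has (real) rank `2`, the other
  one being nonzero.
Then `f` is topologically transitive. -/
theorem result (E : Type*) [NormedAddCommGroup E] [NormedSpace ℝ E] [FiniteDimensional ℝ E]
    (M : Type*) [TopologicalSpace M] [T2Space M] [CompactSpace M] [ConnectedSpace M]
    [ChartedSpace E M] [IsManifold 𝓘(ℝ, E) ∞ M] (f : Diffeomorph 𝓘(ℝ, E) 𝓘(ℝ, E) M M 1)
    (hf2 : ContMDiff 𝓘(ℝ, E) 𝓘(ℝ, E) 2 f) (hf2' : ContMDiff 𝓘(ℝ, E) 𝓘(ℝ, E) 2 f.symm)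
    (Es Eu : ∀ x : M, Submodule ℝ (TangentSpace 𝓘(ℝ, E) x)) (hA : IsAnosov f Es Eu)
    (ds du : ℕ) (hds : ∀ x, Module.finrank ℝ (Es x) = ds)
    (hdu : ∀ x, Module.finrank ℝ (Eu x) = du)
    (hJ : (2 ≤ du ∧ 2 ≤ ds ∧ ∃ G, InvConfOn f Eu G) ∨
      (2 ≤ ds ∧ 2 ≤ du ∧ ∃ G, InvConfOn f Es G) ∨
      (du = 2 ∧ 2 ≤ ds ∧ ∃ J, InvComplexOn f Eu J) ∨
      (ds = 2 ∧ 2 ≤ du ∧ ∃ J, InvComplexOn f Es J) ∨
      ((du = 2 ∨ ds = 2) ∧ 1 ≤ ds ∧ 1 ≤ du ∧
        ∃ J : ∀ x : M, TangentSpace 𝓘(ℝ, E) x →ₗ[ℝ] TangentSpace 𝓘(ℝ, E) x, PreservesAC f J)) :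
    TopTransitive f := by
  rcases hJ with h | h | h | h | ⟨h2, h3, h4, J, h⟩
  · exact (main_confD E M f hf2 hf2' Es Eu hA ds du hds hdu (Or.inl h)).1
  · exact (main_confD E M f hf2 hf2' Es Eu hA ds du hds hdu (Or.inr h)).1
  · exact main_resultC E M f hf2 hf2' Es Eu hA ds du hds hdu (Or.inl h)
  · exact main_resultC E M f hf2 hf2' Es Eu hA ds du hds hdu (Or.inr h)
  · refine main_resultC E M f hf2 hf2' Es Eu hA ds du hds hdu ?_
    obtain ⟨hs, hu⟩ := h.invComplexOn hA
    obtain ⟨x⟩ : Nonempty M := inferInstance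
    haveI : FiniteDimensional ℝ (TangentSpace 𝓘(ℝ, E) x) := inferInstanceAs (FiniteDimensional ℝ E)
    have e1 : 2 ≤ ds := by
      have := two_le_finrank_of_sq (Es x) (J x) (hs.mem x) (hs.sq x) (h3.trans (hds x).ge)
      exact this.trans (hds x).le
    have e2 : 2 ≤ du := by
      have := two_le_finrank_of_sq (Eu x) (J x) (hu.mem x) (hu.sq x) (h4.trans (hdu x).ge)
      exact this.trans (hdu x).le
    rcases h2 with h2 | h2
    · exact Or.inl ⟨h2, e1, J, hu⟩
    · exact Or.inr ⟨h2, e2, J, hs⟩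

end Pool.Agent.Results.MP_610fe3_an.ConformalBundleTransitive
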