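import Pool.Agent.H789R2.PE.TR3

set_option autoImplicit false

open scoped Manifold ContDiff Topology
open Set Filter MeasureTheory

namespace Pool.Agent.Results.MP_610fe3_an.PseudoeffectiveTransitive

open Pool.Agent.H721R2 Pool.Agent.H789R2.AN Pool.Agent.H789R2.PE

/-- **Automorphisms of complex manifolds with pseudo-effective canonical bundle.**
Let `X` be a connected complex manifold of dimension `n ≥ 1` whose canonical bundle is
pseudo-effective in the following sense: there is a nonzero finite Borel measure `μ` on `X` with
density `exp φ`, `φ` plurisubharmonic, in every holomorphic chart (for instance `|s|^(2/m)` for a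
nonzero `m`-canonical form `s`).  Let `F` be an automorphism of `X`.

If `X` is compact and `F` is Anosov, then `F` is topologically transitive.

If `F` preserves a compact connected totally real (real analytic, immersed) manifold `M` of maximal
dimension, for instance a component of the real locus of a real structure of `X`, and acts on it as
an Anosov diffeomorphism `f`, then `f` is topologically transitive. -/
theorem result (n : ℕ) [NeZero n] (X : Type*) [TopologicalSpace X] [T2Space X]
    [SecondCountableTopology X] [ConnectedSpace X] [ChartedSpace (Fin n → ℂ) X]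
    [IsManifold 𝓘(ℂ, Fin n → ℂ) ω X] [MeasurableSpace X] [BorelSpace X] (μ : Measure X)
    [IsFiniteMeasure μ] (hne : μ ≠ 0) (hμ : PshDensities (Fin n → ℂ) μ) (F : X → X)
    (hF : HolAut n F) :
    (CompactSpace X → AnosovMap (Fin n → ℂ) F → TopTransitive F) ∧
    (∀ (M : Type*) [TopologicalSpace M] [T2Space M] [CompactSpace M] [ConnectedSpace M]
      [ChartedSpace (Fin n → ℝ) M] [IsManifold 𝓘(ℝ, Fin n → ℝ) ∞ M] (ι : M → X) (f : M → M),
      TotallyReal n ι → (∀ y, F (ι y) = ι (f y)) → AnosovMap (Fin n → ℝ) f →
      TopTransitive f) := by
  obtain ⟨G, rfl, hG, hG'⟩ := hF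
  constructor
  · rintro hc ⟨g, Es, Eu, hg, hA⟩
    have hgG : (G : X → X) = g := hg
    have hgs : (G.symm : X → X) = g.symm := by
      funext x
      rw [Homeomorph.symm_apply_eq, hgG]
      exact (g.apply_symm_apply x).symm
    rw [hg]
    exact main μ hne hμ g (by rw [← hgG]; exact hG) (by rw [← hgs]; exact hG') Es Eu hA
  · rintro M _ _ _ _ _ _ ι f hι hFf ⟨g, Es, Eu, rfl, hA⟩
    let _ : MeasurableSpace M := borel M
    have _ : BorelSpace M := ⟨rfl⟩
    exact main_real μ hne hμ ι hι G hG hG' g hFf Es Eu hA

end Pool.Agent.Results.MP_610fe3_an.PseudoeffectiveTransitive
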