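import Pool.Agent.H779R2.An.MainA
import Pool.Agent.H779R2.An.AC

set_option autoImplicit false

open scoped Manifold ContDiff Topology Bundle
open Set Filter Bundle

namespace Pool.Agent.Results.MP_610fe3_an.QuasiconformalTransitive

open Pool.Agent.H721R2 Pool.Agent.H789R2.AN Pool.Agent.H779R2.An

/-- **Transitivity of uniformly quasiconformal Anosov diffeomorphisms.**
Let `f` be a `C²` Anosov diffeomorphism of a closed connected smooth manifold `M`, with splitting
`TM = Es ⊕ Eu`, both bundles of positive rank `ds`, `du`.  Suppose that `f` is uniformly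
quasiconformal on `Es` and on `Eu` (`UniformlyQC`) and that one of the following holds:
* `du ≤ ds` and `Eu` carries a continuous `Df`-invariant complex structure (`InvComplexOn`);
* `ds ≤ du` and `Es` carries one;
* `f` preserves a continuous almost complex structure on `M` (`PreservesAC`), for instance `M` is a
  complex manifold and `f` is holomorphic.
Then `f` is topologically transitive. -/
theorem result (E : Type*) [NormedAddCommGroup E] [NormedSpace ℝ E] [FiniteDimensional ℝ E]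
    (M : Type*) [TopologicalSpace M] [T2Space M] [CompactSpace M] [ConnectedSpace M]
    [ChartedSpace E M] [IsManifold 𝓘(ℝ, E) ∞ M] (f : Diffeomorph 𝓘(ℝ, E) 𝓘(ℝ, E) M M 1)
    (hf2 : ContMDiff 𝓘(ℝ, E) 𝓘(ℝ, E) 2 f) (hf2' : ContMDiff 𝓘(ℝ, E) 𝓘(ℝ, E) 2 f.symm)
    (Es Eu : ∀ x : M, Submodule ℝ (TangentSpace 𝓘(ℝ, E) x)) (hA : IsAnosov f Es Eu)
    (N : TangentBundle 𝓘(ℝ, E) M → ℝ) (hN : IsTangentNorm N)
    (hqs : UniformlyQC f N Es) (hqu : UniformlyQC f N Eu) (ds du : ℕ) (hds1 : 1 ≤ ds)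
    (hdu1 : 1 ≤ du) (hds : ∀ x, Module.finrank ℝ (Es x) = ds)
    (hdu : ∀ x, Module.finrank ℝ (Eu x) = du)
    (hJ : (du ≤ ds ∧ ∃ J, InvComplexOn f Eu J) ∨ (ds ≤ du ∧ ∃ J, InvComplexOn f Es J) ∨
      ∃ J : ∀ x : M, TangentSpace 𝓘(ℝ, E) x →ₗ[ℝ] TangentSpace 𝓘(ℝ, E) x, PreservesAC f J) :
    TopTransitive f := by
  refine main_resultA E M f hf2 hf2' Es Eu hA N hN hqs hqu ds du hds1 hdu1 hds hdu ?_
  rcases hJ with h | h | ⟨J, h⟩
  · exact Or.inl h
  · exact Or.inr h
  · obtain ⟨h1, h2⟩ := h.invComplexOn hA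
    rcases le_total du ds with hle | hle
    · exact Or.inl ⟨hle, J, h2⟩
    · exact Or.inr ⟨hle, J, h1⟩

end Pool.Agent.Results.MP_610fe3_an.QuasiconformalTransitive
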